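import Pool.Agent.Q35.TT.Stm3

/-!
# The twisted local bound at unramified places (job GLT of project TT, helper79)
-/

set_option autoImplicit false

open Pool.Agent.Y720.MZ Pool.Agent.Q35.TT WeierstrassCurve

namespace Pool.Agent.Q79.TT

/-- `n` times the point `(x, y)` of the curve `W` is zero. -/
def TW {K : Type} [Field K] (W : WeierstrassCurve K) (x y : K) (n : ℕ) : Prop :=
  letI : DecidableEq K := Classical.decEq K
  ∃ h : W.toAffine.Nonsingular x y, n • (Affine.Point.some x y h : W.toAffine.Point) = 0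

lemma tw_map {K Ω : Type} [Field K] [Field Ω] (φ : K →+* Ω) {W : WeierstrassCurve K} {x y : K}
    {n : ℕ} (h : TW W x y n) : TW (W.map φ) (φ x) (φ y) n := by
  let _ : Algebra K Ω := φ.toAlgebra
  let _ : DecidableEq K := Classical.decEq K
  let _ : DecidableEq Ω := Classical.decEq Ω
  have hW : (W.map (algebraMap K K)) = W := by
    ext <;> rfl
  have key : ∀ W₁ : WeierstrassCurve K, W₁ = W → TW W₁ x y n := by
    intro W₁ e
    rw [e]
    exact h
  obtain ⟨h1, h2⟩ := key _ hW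
  refine ⟨(W.toAffine.baseChange_nonsingular (Algebra.ofId K Ω).injective x y).mpr h1, ?_⟩
  have h3 := congrArg (Affine.Point.map (W' := W.toAffine) (Algebra.ofId K Ω)) h2
  have h4 := (Affine.Point.map (W' := W.toAffine) (Algebra.ofId K Ω)).map_nsmul n
    (Affine.Point.some x y h1)
  exact h4.symm.trans h3

lemma torP_map {K Ω : Type} [Field K] [Field Ω] (φ : K →+* Ω) {a b c x y : K}
    {n : ℕ} (h : TorP a b c x y n) : TorP (φ a) (φ b) (φ c) (φ x) (φ y) n := by
  have h1 : TW (cv a b c) x y n := h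
  have h2 := tw_map φ h1
  have e : (cv a b c).map φ = cv (φ a) (φ b) (φ c) := by
    ext <;> simp [cv]
  rw [e] at h2
  exact h2

theorem glt (h1 : S_EXT) (h2 : S_INF) (h3 : S_TRN) : S_GLT := by
  intro K _ _ v p hg a b c x y d ha hb hc hd hd0 n hn ht
  have h3K : (3 : K) ≠ 0 := by norm_num
  have v3 : v 3 = 1 := by
    have := hg.unit 3 (by norm_num) (by have := hg.p5; omega)
    simpa using this
  have v2 : v 2 = 1 := by
    have := hg.unit 2 (by norm_num) (by have := hg.p5; omega)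
    simpa using this
  have vadd : ∀ s t : K, v s ≤ 1 → v t ≤ 1 → v (s + t) ≤ 1 := fun s t hs ht =>
    (hg.na s t).trans (max_le hs ht)
  have vneg : ∀ s : K, v (-s) = v s := fun s => v.map_neg s
  have vsub : ∀ s t : K, v s ≤ 1 → v t ≤ 1 → v (s - t) ≤ 1 := fun s t hs ht => by
    rw [sub_eq_add_neg]
    exact vadd _ _ hs (by rw [vneg]; exact ht)
  -- translation
  have hdt : dsc (d * a) (d ^ 2 * b) (d ^ 3 * c) ≠ 0 := by
    have e : dsc (d * a) (d ^ 2 * b) (d ^ 3 * c) = d ^ 6 * dsc a b c := by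
      simp only [dsc]; ring
    rw [e]
    exact mul_ne_zero (pow_ne_zero _ hd0) hd
  have t1 := h3 K (d * a) (d ^ 2 * b) (d ^ 3 * c) x y 1 (-(d * a / 3)) n one_ne_zero hdt ht
  have e1 : (d * a + 3 * (-(d * a / 3))) / 1 ^ 2 = 0 := by field_simp; ring
  have e2 : (d ^ 2 * b + 2 * (-(d * a / 3)) * (d * a) + 3 * (-(d * a / 3)) ^ 2) / 1 ^ 4 =
      d ^ 2 * (b - a ^ 2 / 3) := by field_simp; ring
  have e3 : (d ^ 3 * c + (-(d * a / 3)) * (d ^ 2 * b) + (-(d * a / 3)) ^ 2 * (d * a) +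
      (-(d * a / 3)) ^ 3) / 1 ^ 6 = d ^ 3 * (c - a * b / 3 + 2 * a ^ 3 / 27) := by
    field_simp; ring
  have e4 : (x - (-(d * a / 3))) / 1 ^ 2 = d * ((x + d * a / 3) / d) := by
    field_simp; ring
  rw [e1, e2, e3, e4] at t1
  set b' : K := b - a ^ 2 / 3 with hb'
  set c' : K := c - a * b / 3 + 2 * a ^ 3 / 27 with hc'
  set ξ : K := (x + d * a / 3) / d with hξ
  have hds : dsc 0 b' c' = dsc a b c := by
    simp only [dsc, hb', hc']
    field_simp
    ring
  have vb' : v b' ≤ 1 := by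
    refine vsub _ _ hb ?_
    rw [map_div₀, map_pow, v3, div_one]
    exact pow_le_one₀ (v.nonneg _) ha
  have vc' : v c' ≤ 1 := by
    refine vadd _ _ (vsub _ _ hc ?_) ?_
    · rw [map_div₀, map_mul, v3, div_one]
      exact mul_le_one₀ ha (v.nonneg _) hb
    · have e27 : (27 : K) = 3 ^ 3 := by norm_num
      rw [map_div₀, map_mul, map_pow, e27, map_pow, v3, v2, one_pow, div_one, one_mul]
      exact pow_le_one₀ (v.nonneg _) ha
  -- to an algebraically closed field
  obtain ⟨Ω, iF, iA, w, φ, hw, hwφ⟩ := h1 K v hg.na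
  have _ : CharZero Ω := charZero_of_injective_ringHom φ.injective
  have t2 := torP_map φ t1
  obtain ⟨u, hu⟩ := IsAlgClosed.exists_pow_nat_eq (φ d) (n := 2) (by norm_num)
  have hu0 : u ≠ 0 := by
    rintro rfl
    rw [zero_pow (by norm_num)] at hu
    exact hd0 (φ.injective (by rw [← hu, map_zero]))
  rw [map_zero, map_mul, map_mul, map_mul, map_pow, map_pow] at t2
  have hdw : dsc 0 (φ d ^ 2 * φ b') (φ d ^ 3 * φ c') ≠ 0 := by
    have e : dsc 0 (φ d ^ 2 * φ b') (φ d ^ 3 * φ c') = φ (d ^ 6 * dsc 0 b' c') := by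
      simp only [dsc, map_mul, map_pow, map_sub, map_add, map_zero, map_ofNat]; ring
    rw [e, hds]
    intro h
    exact mul_ne_zero (pow_ne_zero _ hd0) hd (φ.injective (by rw [h, map_zero]))
  have t3 := h3 Ω 0 (φ d ^ 2 * φ b') (φ d ^ 3 * φ c') (φ d * φ ξ) _ u 0 n hu0 hdw t2
  have f1 : ((0 : Ω) + 3 * 0) / u ^ 2 = 0 := by simp
  have f2 : (φ d ^ 2 * φ b' + 2 * 0 * 0 + 3 * 0 ^ 2) / u ^ 4 = φ b' := by
    rw [← hu]; field_simp; ring
  have f3 : (φ d ^ 3 * φ c' + 0 * (φ d ^ 2 * φ b') + 0 ^ 2 * 0 + 0 ^ 3) / u ^ 6 = φ c' := by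
    rw [← hu]; field_simp; ring
  have f4 : (φ d * φ ξ - 0) / u ^ 2 = φ ξ := by
    rw [← hu]; field_simp; ring
  rw [f1, f2, f3, f4] at t3
  have hdw' : dsc 0 (φ b') (φ c') ≠ 0 := by
    have e : dsc 0 (φ b') (φ c') = φ (dsc 0 b' c') := by
      simp only [dsc, map_mul, map_pow, map_sub, map_add, map_zero, map_ofNat]
    rw [e, hds]
    intro h
    exact hd (φ.injective (by rw [h, map_zero]))
  have t4 := h2 Ω w hw p hg.prime hg.p5
    (fun k hk1 hk2 => by rw [← map_natCast φ, hwφ]; exact hg.unit k hk1 hk2)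
    (by rw [← map_natCast φ, hwφ]; exact hg.lt)
    (φ b') (φ c') (φ ξ) _ (by rw [hwφ]; exact vb') (by rw [hwφ]; exact vc') hdw' n hn t3
  rw [← map_natCast φ, hwφ, hwφ] at t4
  have hξ1 : v ξ ≤ 1 := by
    by_contra hh
    push Not at hh
    exact absurd t4 (not_le.2 (hg.un ξ hh))
  have hx : x = d * (ξ - a / 3) := by
    rw [hξ]; field_simp; ring
  rw [pow_zero, mul_one, one_mul, hx, map_mul]
  refine mul_le_of_le_one_right (v.nonneg _) (vsub _ _ hξ1 ?_)
  rw [map_div₀, v3, div_one]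
  exact ha

end Pool.Agent.Q79.TT
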